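import Pool.Agent.helper67.RG.Spec3
import Pool.Agent.helper18.RG.REL

/-! Row CNV: a relation from a subquotient. -/

namespace Pool.Agent.RG.CNV

open Matrix Polynomial Pool.Agent.GO Pool.Agent.AR MeasureTheory

theorem roots_two {F : Type*} [Field F] [IsAlgClosed F] (A : Matrix (Fin 2) (Fin 2) F) :
    ∃ α β : F, A.charpoly.IsRoot α ∧ A.charpoly.IsRoot β ∧ α + β = -A.charpoly.coeff 1 := by
  have hd : A.charpoly.degree ≠ 0 := by
    rw [Matrix.charpoly_degree_eq_dim]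
    simp
  obtain ⟨α, hα⟩ := IsAlgClosed.exists_root _ hd
  have h1 : A.charpoly = X ^ 2 - C A.trace * X + C A.det := Matrix.charpoly_fin_two A
  have h2 : A.charpoly.coeff 1 = -A.trace := by
    rw [h1]
    simp
  have h3 : ∀ x, A.charpoly.eval x = x ^ 2 - A.trace * x + A.det := by
    intro x
    rw [h1]
    simp
  refine ⟨α, A.trace - α, hα, ?_, ?_⟩
  · have h4 : A.charpoly.eval α = 0 := hα
    rw [h3] at h4
    show A.charpoly.eval (A.trace - α) = 0
    rw [h3]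
    linear_combination h4
  · rw [h2]; ring

theorem CNV : CNV_stmt := by
  intro Γ Place E F _ _ _ μ frob _ _ _ r n P Q ι V ρ O hO hV hQ hsub
  obtain ⟨U, hU, i, hs⟩ := hsub
  obtain ⟨T₁, hT₁, h₁⟩ := hV i
  obtain ⟨T₂, hT₂, h₂⟩ := hQ
  obtain ⟨Φ, hΦ, hrel⟩ := Pool.Agent.RG.REL.REL (E := E) i (n i)
  refine ⟨{v | v ∈ O ∧ v ∉ T₁ ∪ T₂ ∧ ∃ s ∈ frob v, s ∈ U}, Φ, ?_, ?_⟩
  · intro C T hC hμ hT
    obtain ⟨v, hvO, hvT, s, hsf, hsU, hsC⟩ := hO U hU C ((T₁ ∪ T₂) ∪ T) hC hμ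
      ((hT₁.union hT₂).union hT)
    exact ⟨v, ⟨hvO, fun h => hvT (Or.inl h), s, hsf, hsU⟩, fun h => hvT (Or.inr h), s, hsf, hsC⟩
  · rintro v ⟨hvO, hvT, s, hsf, hsU⟩
    have e₁ := h₁ v (fun h => hvT (Or.inl h)) s hsf
    have e₂ := h₂ v (fun h => hvT (Or.inr h)) s hsf
    refine ⟨(hΦ.map _).ne_zero, ?_⟩
    have hm : (P i v).Monic := by
      refine Polynomial.monic_of_injective ι.injective ?_
      rw [← e₁]
      exact Matrix.charpoly_monic _
    have hdeg : (P i v).natDegree = n i := by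
      rw [← Polynomial.natDegree_map ι, ← e₁, Matrix.charpoly_natDegree_eq_dim,
        Fintype.card_fin]
    obtain ⟨α, β, hα, hβ, hsum⟩ := roots_two (ρ s)
    have k₁ : ((P i v).map ι).IsRoot α := by
      rw [← e₁]
      exact root_of_subquot (fun u : U => V i u) (fun u : U => ρ u) hs ⟨s, hsU⟩ α hα
    have k₂ : ((P i v).map ι).IsRoot β := by
      rw [← e₁]
      exact root_of_subquot (fun u : U => V i u) (fun u : U => ρ u) hs ⟨s, hsU⟩ β hβ
    have k₃ := hrel (fun j => P j v) hm hdeg ι α β k₁ k₂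
    have k₄ : α + β = ι (-(Q v).coeff 1) := by
      rw [hsum, e₂, Polynomial.coeff_map, map_neg]
    rw [k₄] at k₃
    have k₅ : ι (((Φ.map (MvPolynomial.eval fun k => (P k.1 v).coeff k.2))).eval
        (-(Q v).coeff 1)) = 0 := by
      rw [← Polynomial.eval₂_at_apply, ← Polynomial.eval_map]
      exact k₃
    exact (map_eq_zero ι).1 k₅

end Pool.Agent.RG.CNV
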